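import Mathlib
import Pool.Agent.W17.NF.Stm

set_option autoImplicit false

namespace Pool.Agent.W596.NF

open NumberField Finset Pool.Agent.W17.NF

variable (K : Type) [Field K] [NumberField K]

theorem stmtCls : StmtCls K := by
  classical
  have hpos : 0 < Fintype.card (ClassGroup (𝓞 K)) := Fintype.card_pos
  let e := Fintype.equivFin (ClassGroup (𝓞 K))
  refine ⟨Fintype.card (ClassGroup (𝓞 K)), fun I => if h : I ≠ ⊥ then
    e (ClassGroup.mk0 ⟨I, mem_nonZeroDivisors_iff_ne_zero.2 h⟩) else ⟨0, hpos⟩, ?_⟩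
  intro I J hI hJ h
  simp only [hI, hJ, ne_eq, not_false_eq_true, dite_true] at h
  have h2 := e.injective h
  rw [ClassGroup.mk0_eq_mk0_iff] at h2
  obtain ⟨x, y, hx, hy, h3⟩ := h2
  exact ⟨x, y, hx, hy, h3⟩

variable {K}

theorem norm_prod (x : 𝓞 K) : ∏ w : InfinitePlace K, w (x : K) ^ w.mult =
    (Ideal.absNorm (Ideal.span {x}) : ℝ) := by
  rw [InfinitePlace.prod_eq_abs_norm, Ideal.absNorm_span_singleton, ← Algebra.coe_norm_int]
  push_cast
  rw [Nat.cast_natAbs]
  push_cast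
  rfl

omit [NumberField K] in
/-- the element `m` -/
theorem exists_m {I₀ f : Ideal (𝓞 K)} (h0 : I₀ ≠ ⊥) (hc : IsCoprime I₀ f) :
    ∃ m ∈ I₀, m ≠ 0 ∧ (f = ⊤ ∨ ∃ j ∈ f, m + j = 1) := by
  rw [Ideal.isCoprime_iff_exists] at hc
  obtain ⟨i, hi, j, hj, hij⟩ := hc
  by_cases hi0 : i = 0
  · obtain ⟨m, hm, hm0⟩ := Submodule.exists_mem_ne_zero_of_ne_bot h0
    refine ⟨m, hm, hm0, Or.inl ?_⟩
    rw [hi0, zero_add] at hij
    rw [Ideal.eq_top_iff_one, ← hij]
    exact hj
  · exact ⟨i, hi, hi0, Or.inr ⟨j, hj, hij⟩⟩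

theorem stmtGen_of (h : StmtBal K) : StmtGen K := by
  classical
  obtain ⟨C, hC, hbal⟩ := h
  refine ⟨C ^ 2, by nlinarith, ?_⟩
  intro f hf A hA hAA
  rcases A.eq_empty_or_nonempty with rfl | ⟨I₀, hI₀⟩
  · refine ⟨fun _ => 1, ⊤, top_ne_bot, ?_, by simp, by simp⟩
    rw [← Ideal.one_eq_top]
    exact isCoprime_one_left
  obtain ⟨hI₀b, hI₀c⟩ := hA I₀ hI₀
  obtain ⟨m, hm, hm0, hmf⟩ := exists_m hI₀b hI₀c
  obtain ⟨g, hg⟩ := Ideal.dvd_span_singleton.2 hm
  have hspanm : Ideal.span {m} ≠ ⊥ := by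
    rw [Ne, Ideal.span_singleton_eq_bot]; exact hm0
  have hg0 : g ≠ ⊥ := by
    rintro rfl
    rw [Ideal.mul_bot] at hg
    exact hspanm hg
  have hgc : IsCoprime g f := by
    rcases hmf with rfl | ⟨j, hj, hmj⟩
    · rw [← Ideal.one_eq_top]; exact isCoprime_one_right
    · rw [Ideal.isCoprime_iff_exists]
      refine ⟨m, ?_, j, hj, hmj⟩
      have h1 : Ideal.span {m} ≤ g := by
        rw [hg]; exact Ideal.mul_le_right
      exact h1 (Ideal.mem_span_singleton_self m)
  have hd : 0 < (Module.finrank ℚ K : ℝ) := by exact_mod_cast Module.finrank_pos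
  -- the elements
  have key : ∀ I ∈ A, ∃ x : 𝓞 K, x ≠ 0 ∧ Ideal.span {x} = g * I ∧ ∀ w : InfinitePlace K,
      w (x : K) ≤ w (m : K) * (C * ((Ideal.absNorm I : ℝ) / Ideal.absNorm I₀) ^ (1 / dg K)) ∧
      w (m : K) * ((Ideal.absNorm I : ℝ) / Ideal.absNorm I₀) ^ (1 / dg K) ≤ C * w (x : K) := by
    intro I hI
    obtain ⟨hIb, -⟩ := hA I hI
    obtain ⟨a, b, ha, hb, hab⟩ := hAA I hI I₀ hI₀
    have ha' : (a : K) ≠ 0 := by exact_mod_cast ha
    have hb' : (b : K) ≠ 0 := by exact_mod_cast hb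
    -- the generator
    have hmem : m * b ∈ Ideal.span {a} * I := by
      have h1 := Ideal.mul_mem_mul (Ideal.mem_span_singleton_self b) hm
      rw [← hab, mul_comm b m] at h1
      exact h1
    obtain ⟨x, hx, hxa⟩ := Ideal.mem_span_singleton_mul.1 hmem
    have hspana : Ideal.span {a} ≠ ⊥ := by
      rw [Ne, Ideal.span_singleton_eq_bot]; exact ha
    have hx0 : x ≠ 0 := by
      rintro rfl
      rw [mul_zero] at hxa
      exact mul_ne_zero hm0 hb hxa.symm
    have hspan : Ideal.span {x} = g * I := by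
      have h1 : Ideal.span {a} * Ideal.span {x} = Ideal.span {a} * (g * I) := by
        calc Ideal.span {a} * Ideal.span {x} = Ideal.span {m * b} := by
              rw [Ideal.span_singleton_mul_span_singleton, hxa]
          _ = (I₀ * g) * Ideal.span {b} := by
              rw [← Ideal.span_singleton_mul_span_singleton, ← hg]
          _ = g * (Ideal.span {b} * I₀) := by ring
          _ = g * (Ideal.span {a} * I) := by rw [hab]
          _ = _ := by ring
      exact mul_left_cancel₀ hspana h1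
    -- the unit
    obtain ⟨u, hu⟩ := hbal (fun w => w (b : K) / w (a : K)) (fun w => by
      have h1 : 0 < w (a : K) := InfinitePlace.pos_iff.2 ha'
      have h2 : 0 < w (b : K) := InfinitePlace.pos_iff.2 hb'
      positivity)
    have hprod : ∏ w : InfinitePlace K, (w (b : K) / w (a : K)) ^ w.mult =
        (Ideal.absNorm I : ℝ) / Ideal.absNorm I₀ := by
      have h1 : ∏ w : InfinitePlace K, (w (b : K) / w (a : K)) ^ w.mult =
          (Ideal.absNorm (Ideal.span {b}) : ℝ) / (Ideal.absNorm (Ideal.span {a}) : ℝ) := by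
        rw [← norm_prod, ← norm_prod, ← Finset.prod_div_distrib]
        exact Finset.prod_congr rfl fun w _ => div_pow _ _ _
      have h2 := congrArg (fun J => (Ideal.absNorm J : ℝ)) hab
      simp only [map_mul, Nat.cast_mul] at h2
      have h3 : (Ideal.absNorm (Ideal.span {a}) : ℝ) ≠ 0 := by
        have := Ideal.absNorm_eq_zero_iff.not.2 hspana
        exact_mod_cast this
      have h4 : (Ideal.absNorm I₀ : ℝ) ≠ 0 := by
        have := Ideal.absNorm_eq_zero_iff.not.2 hI₀b
        exact_mod_cast this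
      rw [h1, div_eq_div_iff h3 h4]
      linarith
    rw [hprod] at hu
    refine ⟨(u : 𝓞 K) * x, ?_, ?_, ?_⟩
    · exact mul_ne_zero u.ne_zero hx0
    · rw [mul_comm, Ideal.span_singleton_mul_right_unit u.isUnit, hspan]
    · intro w
      have hwa : 0 < w (a : K) := InfinitePlace.pos_iff.2 ha'
      have hwm : 0 < w (m : K) := InfinitePlace.pos_iff.2 (by exact_mod_cast hm0)
      have hxw : w (x : K) = w (m : K) * (w (b : K) / w (a : K)) := by
        have h1 := congrArg (fun z : 𝓞 K => w (z : K)) hxa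
        simp only [map_mul] at h1
        field_simp
        linarith
      obtain ⟨h1, h2⟩ := hu w
      have hux : w (((u : 𝓞 K) * x : 𝓞 K) : K) = w (m : K) * (w (u : K) * (w (b : K) / w (a : K))) := by
        have h3 : (((u : 𝓞 K) * x : 𝓞 K) : K) = (u : K) * (x : K) := by simp
        rw [h3, map_mul, hxw]; ring
      rw [hux]
      constructor
      · exact mul_le_mul_of_nonneg_left h1 hwm.le
      · calc w (m : K) * ((Ideal.absNorm I : ℝ) / Ideal.absNorm I₀) ^ (1 / dg K)
            ≤ w (m : K) * (C * (w (u : K) * (w (b : K) / w (a : K)))) :=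
              mul_le_mul_of_nonneg_left h2 hwm.le
          _ = _ := by ring
  choose! x hx0 hxs hxw using key
  refine ⟨x, g, hg0, hgc, fun I hI => ⟨hx0 I hI, hxs I hI⟩, ?_⟩
  intro I hI J hJ w
  have h1 := (hxw I hI w).1
  have h2 := (hxw J hJ w).2
  have pI : (0 : ℝ) < Ideal.absNorm I := by
    have := Ideal.absNorm_eq_zero_iff.not.2 (hA I hI).1
    exact_mod_cast Nat.pos_of_ne_zero this
  have pJ : (0 : ℝ) < Ideal.absNorm J := by
    have := Ideal.absNorm_eq_zero_iff.not.2 (hA J hJ).1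
    exact_mod_cast Nat.pos_of_ne_zero this
  have p0 : (0 : ℝ) < Ideal.absNorm I₀ := by
    have := Ideal.absNorm_eq_zero_iff.not.2 hI₀b
    exact_mod_cast Nat.pos_of_ne_zero this
  have e : ((Ideal.absNorm I : ℝ) / Ideal.absNorm I₀) ^ (1 / dg K) =
      ((Ideal.absNorm I : ℝ) / Ideal.absNorm J) ^ (1 / dg K) *
        ((Ideal.absNorm J : ℝ) / Ideal.absNorm I₀) ^ (1 / dg K) := by
    rw [← Real.mul_rpow (by positivity) (by positivity)]
    congr 1
    field_simp
  rw [e] at h1
  calc w (x I : K) ≤ _ := h1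
    _ = C * ((Ideal.absNorm I : ℝ) / Ideal.absNorm J) ^ (1 / dg K) *
        (w (m : K) * ((Ideal.absNorm J : ℝ) / Ideal.absNorm I₀) ^ (1 / dg K)) := by ring
    _ ≤ C * ((Ideal.absNorm I : ℝ) / Ideal.absNorm J) ^ (1 / dg K) * (C * w (x J : K)) := by
        apply mul_le_mul_of_nonneg_left h2
        positivity
    _ = _ := by ring

end Pool.Agent.W596.NF
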